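import Mathlib

set_option autoImplicit false

/-!
# `k` terms are not enough for density one (helper30, for helper7)
-/

namespace Pool.Agent.J4H30.WT

open Filter Topology

/-- sums of `k` values of a function `f n ≥ n ^ k`: few values below `X` -/
theorem few_values {k : ℕ} (hk : 2 ≤ k) (f : ℕ → ℕ) (hf : ∀ n, n ^ k ≤ f n) :
    ∃ X0 : ℕ, ∀ X : ℕ, X0 ≤ X → ∀ T : Finset ℕ,
      (∀ N ∈ T, N < X ∧ ∃ x : Fin k → ℕ, (∀ i, 1 ≤ x i) ∧ ∑ i, f (x i) = N) → (T.card : ℝ) ≤ 3 / 4 * X := by
  classical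
  have hlim : Tendsto (fun m : ℕ => (1 + (k : ℝ) / m) ^ k) atTop (𝓝 ((1 + 0) ^ k)) :=
    (tendsto_const_nhds.add (tendsto_const_div_atTop_nhds_zero_nat (k : ℝ))).pow k
  rw [add_zero, one_pow] at hlim
  obtain ⟨M0, hM0⟩ := eventually_atTop.1 (hlim.eventually_le_const (by norm_num : (1 : ℝ) < 3 / 2))
  refine ⟨(max M0 1) ^ k, fun X hX T hT => ?_⟩
  set m : ℕ := Nat.findGreatest (fun m => m ^ k ≤ X) X with hm
  have hle : ∀ x : ℕ, x ^ k ≤ X → x ≤ m := by
    intro x hx
    exact Nat.le_findGreatest (P := fun m => m ^ k ≤ X) ((Nat.le_self_pow (by omega) x).trans hx) hx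
  have hmX : m ^ k ≤ X := by
    have h1 : (fun m => m ^ k ≤ X) 0 := by
      show 0 ^ k ≤ X
      rw [zero_pow (by omega)]
      exact Nat.zero_le _
    exact Nat.findGreatest_spec (P := fun m => m ^ k ≤ X) (Nat.zero_le X) h1
  have hmM : max M0 1 ≤ m := hle _ hX
  have hm1 : 1 ≤ m := (le_max_right _ _).trans hmM
  have hcard : T.card ≤ (m + k - 1).choose k := by
    set φ : Sym (Fin m) k → ℕ := fun s => (s.1.map (fun i : Fin m => f ((i : ℕ) + 1))).sum with hφ
    have hsub : T ⊆ Finset.univ.image φ := by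
      intro N hN
      obtain ⟨hNX, x, hx1, hx2⟩ := hT N hN
      have hxm : ∀ i, x i ≤ m := by
        intro i
        apply hle
        refine (hf (x i)).trans (le_trans ?_ hNX.le)
        rw [← hx2]
        exact Finset.single_le_sum (f := fun i => f (x i)) (fun _ _ => Nat.zero_le _) (Finset.mem_univ i)
      have hlt : ∀ i, x i - 1 < m := fun i => by
        have h1 := hx1 i
        have h2 := hxm i
        omega
      rw [Finset.mem_image]
      refine ⟨⟨(Finset.univ : Finset (Fin k)).val.map (fun i => (⟨x i - 1, hlt i⟩ : Fin m)), by simp⟩,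
        Finset.mem_univ _, ?_⟩
      rw [hφ]
      show (((Finset.univ : Finset (Fin k)).val.map (fun i => (⟨x i - 1, hlt i⟩ : Fin m))).map
        (fun i : Fin m => f ((i : ℕ) + 1))).sum = N
      rw [Multiset.map_map, ← hx2]
      show ((Finset.univ : Finset (Fin k)).val.map _).sum = ∑ i, f (x i)
      rw [Finset.sum]
      congr 1
      apply Multiset.map_congr rfl
      intro i _
      show f (x i - 1 + 1) = f (x i)
      rw [Nat.sub_add_cancel (hx1 i)]
    calc T.card ≤ (Finset.univ.image φ).card := Finset.card_le_card hsub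
      _ ≤ (Finset.univ : Finset (Sym (Fin m) k)).card := Finset.card_image_le
      _ = (m + k - 1).choose k := by
          rw [Finset.card_univ, Sym.card_sym_eq_choose, Fintype.card_fin]
  have hm0 : (0 : ℝ) < m := by exact_mod_cast hm1
  have hfac : (2 : ℝ) ≤ (k.factorial : ℝ) := by
    have : 2 ≤ k.factorial := hk.trans (Nat.self_le_factorial k)
    exact_mod_cast this
  calc (T.card : ℝ) ≤ ((m + k - 1).choose k : ℝ) := by exact_mod_cast hcard
    _ ≤ ((m + k - 1 : ℕ) : ℝ) ^ k / (k.factorial : ℝ) := Nat.choose_le_pow_div k (m + k - 1)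
    _ ≤ ((m + k - 1 : ℕ) : ℝ) ^ k / 2 := div_le_div_of_nonneg_left (by positivity) (by norm_num) hfac
    _ ≤ ((m : ℝ) * (1 + k / m)) ^ k / 2 := by
        apply div_le_div_of_nonneg_right _ (by norm_num)
        apply pow_le_pow_left₀ (Nat.cast_nonneg _)
        have e1 : (m : ℝ) * (1 + k / m) = ((m + k : ℕ) : ℝ) := by
          push_cast
          field_simp
        rw [e1]
        exact_mod_cast (show m + k - 1 ≤ m + k by omega)
    _ = (m : ℝ) ^ k * (1 + k / m) ^ k / 2 := by rw [mul_pow]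
    _ ≤ (m : ℝ) ^ k * (3 / 2) / 2 := by
        apply div_le_div_of_nonneg_right _ (by norm_num)
        apply mul_le_mul_of_nonneg_left _ (by positivity)
        exact hM0 m ((le_max_left _ _).trans hmM)
    _ = 3 / 4 * (m : ℝ) ^ k := by ring
    _ ≤ 3 / 4 * X := by
        apply mul_le_mul_of_nonneg_left _ (by norm_num)
        exact_mod_cast hmX

open scoped Classical in
/-- **(Y2)** -/
theorem few {k : ℕ} (hk : 2 ≤ k) (f : ℕ → ℕ) (hf : ∀ n, n ^ k ≤ f n) :
    ∃ c : ℝ, c < 1 ∧ ∃ X0 : ℕ, ∀ X : ℕ, X0 ≤ X →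
      (((Finset.range X).filter (fun N => ∃ x : Fin k → ℕ, (∀ i, 1 ≤ x i) ∧ ∑ i, f (x i) = N)).card : ℝ) ≤ c * X := by
  obtain ⟨X0, h⟩ := few_values hk f hf
  refine ⟨3 / 4, by norm_num, X0, fun X hX => h X hX _ fun N hN => ?_⟩
  rw [Finset.mem_filter, Finset.mem_range] at hN
  exact hN

end Pool.Agent.J4H30.WT
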