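import Pool.Agent.J4H7.WS.O
import Pool.Agent.J4H30.WS.Pol

set_option autoImplicit false

/-!
# Generic polynomials: the function and its exponential sums (helper30, for helper7)
-/

namespace Pool.Agent.J4H30.WT

open Filter Topology Polynomial
open Pool.Agent.J4H7.WE (ff ff_succ)
open Pool.Agent.J4H7.WR (ff_kpos)
open Pool.Agent.J4H7.WL (DC)
open Pool.Agent.J4H7.WS (Fn Fam ESL ESall ES_of SG)
open Pool.Agent.Helper153.Vdc (ee)

/-- `z ^ k + ∑ α i z ^ i` -/
noncomputable def fT (k : ℕ) (α : Fin k → ℝ) (z : ℝ) : ℝ := z ^ k + ∑ i : Fin k, α i * z ^ (i : ℕ)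

/-- the lower part as a polynomial -/
noncomputable def RT (k : ℕ) (α : Fin k → ℝ) : ℝ[X] := ∑ i : Fin k, C (α i) * X ^ (i : ℕ)

lemma eval_RT (k : ℕ) (α : Fin k → ℝ) (z : ℝ) : (RT k α).eval z = ∑ i : Fin k, α i * z ^ (i : ℕ) := by
  unfold RT
  rw [eval_finsetSum]
  simp

lemma eval_PT (k : ℕ) (α : Fin k → ℝ) (z : ℝ) : (X ^ k + RT k α).eval z = fT k α z := by
  rw [eval_add, eval_RT, eval_pow, eval_X]
  rfl

lemma coeff_RT (k : ℕ) (α : Fin k → ℝ) (m : ℕ) : (RT k α).coeff m = ∑ i : Fin k, if m = (i : ℕ) then α i else 0 := by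
  unfold RT
  rw [finsetSum_coeff]
  simp only [coeff_C_mul_X_pow]

lemma coeff_RT_ge {k : ℕ} (α : Fin k → ℝ) {m : ℕ} (h : k ≤ m) : (RT k α).coeff m = 0 := by
  rw [coeff_RT]
  apply Finset.sum_eq_zero
  intro i _
  rw [if_neg]
  have := i.2
  omega

lemma coeff_RT_top {k : ℕ} (hk : 1 ≤ k) (α : Fin k → ℝ) : (RT k α).coeff (k - 1) = α ⟨k - 1, by omega⟩ := by
  rw [coeff_RT, Finset.sum_eq_single (⟨k - 1, by omega⟩ : Fin k)]
  · rw [if_pos rfl]
  · intro i _ hi
    rw [if_neg]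
    intro h
    apply hi
    ext
    exact h.symm
  · intro h
    exact absurd (Finset.mem_univ _) h

lemma natDegree_RT {k : ℕ} (hk : 1 ≤ k) {α : Fin k → ℝ} (hα : ∀ i, 0 < α i) : (RT k α).natDegree = k - 1 := by
  apply natDegree_eq_of_le_of_coeff_ne_zero
  · rw [natDegree_le_iff_coeff_eq_zero]
    intro m hm
    exact coeff_RT_ge α (by omega)
  · rw [coeff_RT_top hk]
    exact (hα _).ne'

lemma leadingCoeff_RT {k : ℕ} (hk : 1 ≤ k) {α : Fin k → ℝ} (hα : ∀ i, 0 < α i) :
    (RT k α).leadingCoeff = α ⟨k - 1, by omega⟩ := by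
  rw [leadingCoeff, natDegree_RT hk hα, coeff_RT_top hk]

lemma natDegree_PT {k : ℕ} (hk : 1 ≤ k) {α : Fin k → ℝ} (hα : ∀ i, 0 < α i) : (X ^ k + RT k α).natDegree ≤ k :=
  natDegree_add_le_of_degree_le (natDegree_X_pow_le k) (by rw [natDegree_RT hk hα]; omega)

lemma tail_le {k : ℕ} {α : Fin k → ℝ} (hα : ∀ i, 0 < α i) {z : ℝ} (hz : 1 ≤ z) {m : ℕ} (hm : k ≤ m + 1) :
    ∑ i : Fin k, α i * z ^ (i : ℕ) ≤ (∑ i, α i) * z ^ m := by
  rw [Finset.sum_mul]
  apply Finset.sum_le_sum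
  intro i _
  apply mul_le_mul_of_nonneg_left _ (hα i).le
  apply pow_le_pow_right₀ hz
  have := i.2
  omega

/-- **(W1)** -/
theorem Fn_T {k : ℕ} (hk : 2 ≤ k) {α : Fin k → ℝ} (hα : ∀ i, 0 < α i) : Fn k (fT k α) := by
  have hS0 : 0 ≤ ∑ i, α i := Finset.sum_nonneg fun i _ => (hα i).le
  have hnn : ∀ z : ℝ, 0 ≤ z → 0 ≤ ∑ i : Fin k, α i * z ^ (i : ℕ) := fun z hz =>
    Finset.sum_nonneg fun i _ => mul_nonneg (hα i).le (pow_nonneg hz _)
  refine ⟨?_, ?_, ?_, ?_, ?_, ?_, ?_⟩
  · intro z hz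
    unfold fT
    exact add_nonneg (pow_nonneg hz k) (hnn z hz)
  · intro a b ha hab
    unfold fT
    apply add_le_add (pow_le_pow_left₀ ha.le hab k)
    apply Finset.sum_le_sum
    intro i _
    exact mul_le_mul_of_nonneg_left (pow_le_pow_left₀ ha.le hab _) (hα i).le
  · intro z hz
    unfold fT
    fun_prop
  · intro z hz
    unfold fT
    linarith [hnn z hz.le]
  · filter_upwards [eventually_ge_atTop (1 : ℝ), eventually_ge_atTop (∑ i, α i)] with z hz1 hz2
    have h1 := tail_le hα hz1 (m := k - 1) (by omega)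
    have h2 : (∑ i, α i) * z ^ (k - 1) ≤ z * z ^ (k - 1) := mul_le_mul_of_nonneg_right hz2 (by positivity)
    have h3 : z * z ^ (k - 1) = z ^ k := by
      rw [← pow_succ']
      congr 1
      omega
    unfold fT
    linarith
  · refine ⟨1 + ∑ i, α i, by linarith, fun z hz => ?_⟩
    have h1 := tail_le hα hz (m := k) (by omega)
    unfold fT
    linarith
  · obtain ⟨K, hK0, hK⟩ := Pool.Agent.J4H30.WS.lip_poly (X ^ k + RT k α) k (natDegree_PT (by omega) hα)
    refine ⟨K + 1, by linarith, fun u v hu huv => ?_⟩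
    have h1 := hK v (by linarith) v u (by linarith) le_rfl (by linarith) huv
    rw [eval_PT, eval_PT, abs_of_nonneg (by linarith : 0 ≤ v - u)] at h1
    have h2 : v ^ ((k : ℝ) - 1) = v ^ (k - 1) := by
      rw [← Real.rpow_natCast v (k - 1), Nat.cast_sub (by omega), Nat.cast_one]
    rw [h2]
    have h3 : 0 ≤ v ^ (k - 1) * (v - u) := mul_nonneg (pow_nonneg (by linarith) _) (by linarith)
    calc fT k α v - fT k α u ≤ K * v ^ (k - 1) * (v - u) := (le_abs_self _).trans h1
      _ ≤ (K + 1) * v ^ (k - 1) * (v - u) := by nlinarith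

lemma ff_desc {k : ℕ} : ∀ {j : ℕ}, j ≤ k → ff (k : ℝ) j = (k.descFactorial j : ℝ) := by
  intro j
  induction j with
  | zero => intro _; simp [ff]
  | succ j ih =>
    intro h
    rw [ff_succ, ih (by omega), Nat.descFactorial_succ, Nat.cast_mul, Nat.cast_sub (by omega)]
    ring

lemma Fam_T {k : ℕ} (hk : 2 ≤ k) {α : Fin k → ℝ} (hα : ∀ i, 0 < α i) :
    Fam k (fun i z => (derivative^[i] (X ^ k + RT k α)).eval z) := by
  refine ⟨?_, ?_, ?_⟩
  · intro i z _
    have h1 := (derivative^[i] (X ^ k + RT k α)).hasDerivAt z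
    rw [← Function.iterate_succ_apply' (f := derivative)] at h1
    exact h1
  · intro j hj
    have hp := ff_kpos hj
    have hdeg : (derivative^[j] (RT k α)).degree < (X ^ (k - j) : ℝ[X]).degree := by
      rw [degree_X_pow]
      rcases Nat.lt_or_ge j k with h | h
      · refine lt_of_le_of_lt degree_le_natDegree ?_
        have h1 := natDegree_iterate_derivative (RT k α) j
        rw [natDegree_RT (by omega) hα] at h1
        have : (derivative^[j] (RT k α)).natDegree < k - j := by omega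
        exact_mod_cast this
      · have : derivative^[j] (RT k α) = 0 := iterate_derivative_eq_zero (by rw [natDegree_RT (by omega) hα]; omega)
        rw [this, degree_zero]
        exact WithBot.bot_lt_coe _
    have ht := div_tendsto_atTop_zero_of_degree_lt _ _ hdeg
    have h2 : ∀ᶠ z : ℝ in atTop, |eval z (derivative^[j] (RT k α)) / eval z (X ^ (k - j) : ℝ[X])| < 1 / 2 * ff (k : ℝ) j := by
      have := ht.eventually (Metric.ball_mem_nhds (0 : ℝ) (by positivity : 0 < 1 / 2 * ff (k : ℝ) j))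
      filter_upwards [this] with z hz
      rwa [Real.dist_eq, sub_zero] at hz
    filter_upwards [h2, eventually_gt_atTop 0] with z hz hz0
    have hzp : 0 < z ^ (k - j) := pow_pos hz0 _
    have e1 : z ^ ((k : ℝ) - j) = z ^ (k - j) := by
      rw [← Real.rpow_natCast z (k - j), Nat.cast_sub hj]
    have e2 : eval z (derivative^[j] (X ^ k + RT k α)) = ff (k : ℝ) j * z ^ (k - j) + eval z (derivative^[j] (RT k α)) := by
      rw [iterate_map_add, eval_add, iterate_derivative_X_pow_eq_natCast_mul, ff_desc hj]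
      simp
    rw [eval_pow, eval_X, abs_div, abs_of_pos hzp, div_lt_iff₀ hzp] at hz
    rw [e1, e2]
    have e3 : ff (k : ℝ) j * z ^ (k - j) + eval z (derivative^[j] (RT k α)) - ff (k : ℝ) j * z ^ (k - j) =
        eval z (derivative^[j] (RT k α)) := by ring
    rw [e3]
    linarith
  · left
    refine Eventually.of_forall fun z => ?_
    have : derivative^[k + 1] (X ^ k + RT k α) = 0 :=
      iterate_derivative_eq_zero (Nat.lt_succ_of_le (natDegree_PT (by omega) hα))
    rw [this, eval_zero]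

lemma ESL_T {k : ℕ} (hk : 2 ≤ k) {α : Fin k → ℝ} (hα : ∀ i, 0 < α i) {c : ℝ} (hc : 0 < c)
    (hD : DC c (α ⟨k - 1, by omega⟩)) : ESL (fT k α) := by
  obtain ⟨η, hη, σ, h1, h2, C, hC, X0, hX0, H⟩ := Pool.Agent.J4H30.WS.t_POL k (k - 1) (by omega) (by omega) (RT k α)
    (natDegree_RT (by omega) hα) hc (by rw [leadingCoeff_RT (by omega) hα]; exact hD)
  refine ⟨min η 1, lt_min hη one_pos, min_le_right _ _, σ, h1, h2, C, hC, X0, hX0, ?_⟩
  intro X hX β hb1 hb2 Y M hY hM
  have hX1 : 1 ≤ X := by linarith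
  have h3 := H X hX β hb1 (hb2.trans (Real.rpow_le_rpow_of_exponent_le hX1 (min_le_left _ _))) Y M hY hM
  simp only [eval_RT] at h3
  unfold SG fT
  exact h3

/-- **(W2)** -/
theorem ES_T {k : ℕ} (hk : 2 ≤ k) {α : Fin k → ℝ} (hα : ∀ i, 0 < α i) {c : ℝ} (hc : 0 < c)
    (hD : Pool.Agent.J4H7.WL.DC c (α ⟨k - 1, by omega⟩)) : Pool.Agent.J4H7.WS.ESall k (fT k α) := by
  have e : (fun z => (derivative^[0] (X ^ k + RT k α)).eval z) = fT k α := by
    funext z
    exact eval_PT k α z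
  have h := ES_of hk (Fam_T hk hα)
  rw [e] at h
  exact h (ESL_T hk hα hc hD)

end Pool.Agent.J4H30.WT
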