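import Mathlib

/-!
Chebyshev's lower bound for the number of primes in a dyadic interval:
`#{p prime, M ≤ p < 2 M} ≥ c M / log M` for all large `M`, with `c = 1/8`.
The proof bounds the central binomial coefficient from above, as in Mathlib's proof of
Bertrand's postulate, but keeps the primes between `n` and `2 n`.
-/

namespace Pool.Agent.J4H30.WT

open Finset Filter

/-- Upper bound for the central binomial coefficient in terms of the number of primes in
`[n, 2 n)`. -/
theorem cb_le (n : ℕ) (n_large : 2 < n) :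
    n.centralBinom ≤ (2 * n) ^ Nat.sqrt (2 * n) * 4 ^ (2 * n / 3) *
      (2 * n) ^ ((Finset.Ico n (2 * n)).filter Nat.Prime).card := by
  classical
  have n_pos : 0 < n := by omega
  have n2_pos : 1 ≤ 2 * n := by omega
  set f : ℕ → ℕ := fun p => p ^ n.centralBinom.factorization p with hf
  set a : ℕ → ℕ := fun p => if (p.Prime ∧ p ≤ Nat.sqrt (2 * n)) then 2 * n else 1 with ha
  set b : ℕ → ℕ := fun p => if (p.Prime ∧ p ≤ 2 * n / 3) then p else 1 with hb
  set c : ℕ → ℕ := fun p => if (p.Prime ∧ n ≤ p ∧ p < 2 * n) then 2 * n else 1 with hc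
  have ha1 : ∀ p, 1 ≤ a p := by
    intro p; simp only [ha]; split_ifs <;> omega
  have hb1 : ∀ p, 1 ≤ b p := by
    intro p; simp only [hb]; split_ifs with h
    · exact h.1.one_lt.le
    · exact le_rfl
  have hc1 : ∀ p, 1 ≤ c p := by
    intro p; simp only [hc]; split_ifs <;> omega
  have hpt : ∀ p ∈ Finset.range (2 * n + 1), f p ≤ a p * b p * c p := by
    intro p hp
    rw [Finset.mem_range, Nat.lt_succ_iff] at hp
    by_cases hpp : p.Prime
    · by_cases h1 : p ≤ Nat.sqrt (2 * n)
      · have hle : f p ≤ 2 * n := Nat.pow_factorization_choose_le (by omega)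
        have ha2 : a p = 2 * n := by simp only [ha]; rw [if_pos ⟨hpp, h1⟩]
        calc f p ≤ 2 * n := hle
          _ = 2 * n * 1 * 1 := by ring
          _ ≤ a p * b p * c p := by
              rw [ha2]
              exact Nat.mul_le_mul (Nat.mul_le_mul le_rfl (hb1 p)) (hc1 p)
      · rw [not_le] at h1
        have hv : n.centralBinom.factorization p ≤ 1 :=
          Nat.factorization_choose_le_one (Nat.sqrt_lt'.mp h1)
        have hle : f p ≤ p := by
          calc f p = p ^ n.centralBinom.factorization p := rfl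
            _ ≤ p ^ 1 := Nat.pow_le_pow_right hpp.pos hv
            _ = p := pow_one p
        by_cases h2 : p ≤ 2 * n / 3
        · have hb2 : b p = p := by simp only [hb]; rw [if_pos ⟨hpp, h2⟩]
          calc f p ≤ p := hle
            _ = 1 * p * 1 := by ring
            _ ≤ a p * b p * c p := by
              rw [hb2]
              exact Nat.mul_le_mul (Nat.mul_le_mul (ha1 p) le_rfl) (hc1 p)
        · rw [not_le] at h2
          by_cases h3 : p ≤ n
          · have h4 : n.centralBinom.factorization p = 0 :=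
              Nat.factorization_centralBinom_of_two_mul_self_lt_three_mul n_large h3 (by omega)
            have : f p = 1 := by simp only [hf]; rw [h4, pow_zero]
            rw [this]
            have := Nat.mul_le_mul (Nat.mul_le_mul (ha1 p) (hb1 p)) (hc1 p)
            simpa using this
          · rw [not_le] at h3
            have h5 : p < 2 * n := by
              rcases Nat.lt_or_ge p (2 * n) with h | h
              · exact h
              · exfalso
                have hpe : p = 2 * n := le_antisymm hp h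
                have h2d : 2 ∣ p := ⟨n, hpe⟩
                have := (Nat.prime_dvd_prime_iff_eq Nat.prime_two hpp).mp h2d
                omega
            have hc2 : c p = 2 * n := by
              simp only [hc]; rw [if_pos ⟨hpp, h3.le, h5⟩]
            have hle2 : f p ≤ 2 * n := hle.trans hp
            calc f p ≤ 2 * n := hle2
              _ = 1 * 1 * (2 * n) := by ring
              _ ≤ a p * b p * c p := by
                rw [hc2]
                exact Nat.mul_le_mul (Nat.mul_le_mul (ha1 p) (hb1 p)) le_rfl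
    · have : f p = 1 := by
        simp only [hf]
        rw [Nat.factorization_eq_zero_of_not_prime n.centralBinom hpp, pow_zero]
      rw [this]
      have := Nat.mul_le_mul (Nat.mul_le_mul (ha1 p) (hb1 p)) (hc1 p)
      simpa using this
  have hprod : n.centralBinom ≤ (∏ p ∈ Finset.range (2 * n + 1), a p) *
      (∏ p ∈ Finset.range (2 * n + 1), b p) * (∏ p ∈ Finset.range (2 * n + 1), c p) := by
    rw [← Finset.prod_mul_distrib, ← Finset.prod_mul_distrib,
      ← Nat.prod_pow_factorization_centralBinom n]
    exact Finset.prod_le_prod' hpt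
  have hA : (∏ p ∈ Finset.range (2 * n + 1), a p) ≤ (2 * n) ^ Nat.sqrt (2 * n) := by
    simp only [ha]
    rw [← Finset.prod_filter, Finset.prod_const]
    refine Nat.pow_le_pow_right n2_pos ?_
    calc (filter (fun p => Nat.Prime p ∧ p ≤ Nat.sqrt (2 * n)) (range (2 * n + 1))).card
        ≤ (Finset.Icc 1 (Nat.sqrt (2 * n))).card := by
          refine Finset.card_le_card fun p hp => ?_
          have := (Finset.mem_filter.1 hp).2
          exact Finset.mem_Icc.mpr ⟨this.1.one_lt.le, this.2⟩
      _ = Nat.sqrt (2 * n) := by rw [Nat.card_Icc, Nat.add_sub_cancel]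
  have hB : (∏ p ∈ Finset.range (2 * n + 1), b p) ≤ 4 ^ (2 * n / 3) := by
    refine le_trans ?_ (primorial_le_four_pow (2 * n / 3))
    simp only [hb]
    rw [← Finset.prod_filter]
    unfold primorial
    refine Finset.prod_le_prod_of_subset_of_one_le' ?_ ?_
    · intro p hp
      have h := (Finset.mem_filter.1 hp).2
      rw [Finset.mem_filter, Finset.mem_range]
      exact ⟨by omega, h.1⟩
    · intro p hp _
      exact (Finset.mem_filter.1 hp).2.one_lt.le
  have hC : (∏ p ∈ Finset.range (2 * n + 1), c p) ≤
      (2 * n) ^ ((Finset.Ico n (2 * n)).filter Nat.Prime).card := by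
    simp only [hc]
    rw [← Finset.prod_filter, Finset.prod_const]
    refine Nat.pow_le_pow_right n2_pos (Finset.card_le_card fun p hp => ?_)
    have h := (Finset.mem_filter.1 hp).2
    rw [Finset.mem_filter, Finset.mem_Ico]
    exact ⟨⟨h.2.1, h.2.2⟩, h.1⟩
  exact hprod.trans (Nat.mul_le_mul (Nat.mul_le_mul hA hB) hC)

/-- The logarithmic form. -/
theorem log_form (n : ℕ) (n_large : 4 ≤ n) :
    (n : ℝ) / 3 * Real.log 4 ≤ Real.log n + Real.sqrt (2 * n) * Real.log (2 * n) +
      (((Finset.Ico n (2 * n)).filter Nat.Prime).card : ℝ) * Real.log (2 * n) := by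
  set K := ((Finset.Ico n (2 * n)).filter Nat.Prime).card with hK
  have h1 : 4 ^ n < n * n.centralBinom := Nat.four_pow_lt_mul_centralBinom n n_large
  have h2 : 4 ^ n ≤ n * ((2 * n) ^ Nat.sqrt (2 * n) * 4 ^ (2 * n / 3) * (2 * n) ^ K) :=
    h1.le.trans (Nat.mul_le_mul le_rfl (cb_le n (by omega)))
  have h3 : (4 : ℝ) ^ n ≤ n * ((2 * n) ^ Nat.sqrt (2 * n) * 4 ^ (2 * n / 3) * (2 * n) ^ K) := by
    exact_mod_cast h2
  have hn0 : (0 : ℝ) < n := by exact_mod_cast (by omega : 0 < n)
  have hn2 : (0 : ℝ) < 2 * n := by positivity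
  have h4 := Real.log_le_log (by positivity) h3
  rw [Real.log_pow, Real.log_mul (by positivity) (by positivity),
    Real.log_mul (by positivity) (by positivity), Real.log_mul (by positivity) (by positivity),
    Real.log_pow, Real.log_pow, Real.log_pow] at h4
  have hl4 : 0 < Real.log 4 := Real.log_pos (by norm_num)
  have hl2n : 0 ≤ Real.log (2 * n) := by
    apply Real.log_nonneg
    have : (4 : ℝ) ≤ n := by exact_mod_cast n_large
    linarith
  have h5 : ((2 * n / 3 : ℕ) : ℝ) ≤ 2 * n / 3 := by
    have := @Nat.cast_div_le ℝ _ _ _ (2 * n) 3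
    simpa using this
  have h6 : ((Nat.sqrt (2 * n) : ℕ) : ℝ) ≤ Real.sqrt (2 * n) := by
    have := @Real.nat_sqrt_le_real_sqrt (2 * n)
    simpa using this
  have h7 : ((2 * n / 3 : ℕ) : ℝ) * Real.log 4 ≤ 2 * n / 3 * Real.log 4 :=
    mul_le_mul_of_nonneg_right h5 hl4.le
  have h8 : ((Nat.sqrt (2 * n) : ℕ) : ℝ) * Real.log (2 * n) ≤
      Real.sqrt (2 * n) * Real.log (2 * n) := mul_le_mul_of_nonneg_right h6 hl2n
  nlinarith [h4, h7, h8]

/-- **Chebyshev's lower bound in dyadic form.** -/
theorem primes_dyadic : ∃ c : ℝ, 0 < c ∧ ∀ᶠ M : ℕ in atTop,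
    c * M / Real.log M ≤ (((Finset.Ico M (2 * M)).filter Nat.Prime).card : ℝ) := by
  refine ⟨1 / 8, by norm_num, ?_⟩
  have hlit : ∀ᶠ x : ℝ in atTop, Real.log x ≤ (1 / 20) * Real.sqrt x := by
    have h := (isLittleO_log_rpow_atTop (r := 1 / 2) (by norm_num)).bound
      (show (0 : ℝ) < 1 / 20 by norm_num)
    filter_upwards [h, eventually_ge_atTop (1 : ℝ)] with x hx hx1
    rw [Real.norm_eq_abs, Real.norm_eq_abs, abs_of_nonneg (Real.log_nonneg hx1),
      abs_of_nonneg (by positivity)] at hx
    rw [Real.sqrt_eq_rpow]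
    exact hx
  have htend : Tendsto (fun M : ℕ => (2 : ℝ) * M) atTop atTop :=
    Tendsto.const_mul_atTop (by norm_num) tendsto_natCast_atTop_atTop
  filter_upwards [htend.eventually hlit, eventually_ge_atTop 4] with n hlog hn
  have hnR : (4 : ℝ) ≤ n := by exact_mod_cast hn
  have hlf := log_form n hn
  set K : ℝ := (((Finset.Ico n (2 * n)).filter Nat.Prime).card : ℝ) with hK
  have hK0 : 0 ≤ K := by positivity
  have hn0 : (0 : ℝ) < n := by linarith
  have hlogn : 0 < Real.log n := Real.log_pos (by linarith)
  have hs0 : 0 ≤ Real.sqrt (2 * n) := Real.sqrt_nonneg _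
  have hss : Real.sqrt (2 * n) * Real.sqrt (2 * n) = 2 * n := Real.mul_self_sqrt (by positivity)
  have hs1 : Real.sqrt (2 * n) ≤ 2 * n := by
    have h1 : 1 ≤ Real.sqrt (2 * n) := by
      rw [Real.one_le_sqrt]; linarith
    nlinarith
  have hlog2n : Real.log n ≤ Real.log (2 * n) := Real.log_le_log hn0 (by linarith)
  have hlogle : Real.log (2 * n) ≤ 2 * Real.log n := by
    have : Real.log (2 * n) ≤ Real.log ((n : ℝ) ^ 2) := by
      apply Real.log_le_log (by positivity)
      nlinarith
    rw [Real.log_pow] at this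
    exact_mod_cast this
  have ha : Real.log n ≤ n / 10 := by linarith
  have hb : Real.sqrt (2 * n) * Real.log (2 * n) ≤ n / 10 := by
    have := mul_le_mul_of_nonneg_left hlog hs0
    nlinarith
  have hl4 : (1.38 : ℝ) ≤ Real.log 4 := by
    have h2 : Real.log 4 = 2 * Real.log 2 := by
      rw [show (4 : ℝ) = 2 ^ 2 by norm_num, Real.log_pow]; norm_num
    rw [h2]
    have := Real.log_two_gt_d9
    linarith
  have hmain : (n : ℝ) / 4 ≤ K * Real.log (2 * n) := by nlinarith
  have hmain2 : (n : ℝ) / 4 ≤ K * (2 * Real.log n) :=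
    hmain.trans (mul_le_mul_of_nonneg_left hlogle hK0)
  rw [div_le_iff₀ hlogn]
  linarith

end Pool.Agent.J4H30.WT
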