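import Pool.Agent.J4H7.WE.D1

set_option autoImplicit false

/-!
# The variance of the number of representations (helper30, for helper7)
-/

namespace Pool.Agent.J4H30.WT

open MeasureTheory
open Pool.Agent.J4H7.WE
open Pool.Agent.Helper153.Vdc (ee)

open scoped Classical in
/-- the weighted number of representations by one sum `F` -/
noncomputable def rr {ι κ : Type*} (A : Finset ι) (f : ι → ℕ) (B : Finset κ) (g : κ → ℕ) (w : κ → ℝ) (N : ℤ) : ℝ :=
  ∑ a ∈ A, ∑ b ∈ B, if ((f a : ℤ) + g b = N) then w b else 0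

lemma rr_eq {ι κ : Type*} (A : Finset ι) (f : ι → ℕ) (B : Finset κ) (g : κ → ℕ) (w : κ → ℝ) (N : ℤ) :
    ((rr A f B g w N : ℝ) : ℂ) = ∫ α in (-(1 / 2) : ℝ)..(1 / 2), FFs A f α * GGs B g w α * ee (-(N * α)) := by
  classical
  have hc := ee_cont
  have e1 : ∀ α : ℝ, FFs A f α * GGs B g w α * ee (-(N * α)) =
      ∑ a ∈ A, ∑ b ∈ B, (w b : ℂ) * ee ((((f a : ℤ) + g b - N : ℤ) : ℝ) * α) := by
    intro α
    unfold FFs GGs
    rw [Finset.sum_mul, Finset.sum_mul]
    refine Finset.sum_congr rfl fun a _ => ?_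
    rw [Finset.mul_sum, Finset.sum_mul]
    refine Finset.sum_congr rfl fun b _ => ?_
    have : (((f a : ℤ) + g b - N : ℤ) : ℝ) * α = (α * f a) + (α * g b) + -(N * α) := by
      push_cast
      ring
    rw [this, ee_add, ee_add]
    ring
  simp_rw [e1]
  rw [intervalIntegral.integral_finsetSum]
  · unfold rr
    push_cast
    refine Finset.sum_congr rfl fun a _ => ?_
    rw [intervalIntegral.integral_finsetSum]
    · refine Finset.sum_congr rfl fun b _ => ?_
      have ho := ee_orth ((f a : ℤ) + g b - N)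
      push_cast at ho
      rw [intervalIntegral.integral_const_mul, ho]
      by_cases h : (f a : ℤ) + g b = N
      · rw [if_pos h, if_pos (by omega), mul_one]
      · rw [if_neg h, if_neg (by omega), mul_zero]
        simp
    · intro b _
      apply Continuous.intervalIntegrable
      fun_prop
  · intro a _
    apply Continuous.intervalIntegrable
    fun_prop

lemma conj_ee (x : ℝ) : (starRingEnd ℂ) (ee x) = ee (-x) := by
  unfold ee
  rw [← Complex.exp_conj]
  congr 1
  simp only [map_mul, Complex.conj_ofReal, Complex.conj_I, Complex.conj_ofNat]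
  push_cast
  ring

/-- the square mean of a trigonometric polynomial -/
lemma pars (S : Finset ℤ) (c : ℤ → ℂ) :
    ∫ α in (-(1 / 2) : ℝ)..(1 / 2), ‖∑ N ∈ S, c N * ee (N * α)‖ ^ 2 = ∑ N ∈ S, ‖c N‖ ^ 2 := by
  classical
  have hc := ee_cont
  have h1 : ((∫ α in (-(1 / 2) : ℝ)..(1 / 2), ‖∑ N ∈ S, c N * ee (N * α)‖ ^ 2 : ℝ) : ℂ) =
      ((∑ N ∈ S, ‖c N‖ ^ 2 : ℝ) : ℂ) := by
    rw [← intervalIntegral.integral_ofReal]
    have e1 : ∀ α : ℝ, ((‖∑ N ∈ S, c N * ee (N * α)‖ ^ 2 : ℝ) : ℂ) =
        ∑ N ∈ S, ∑ M ∈ S, (c N * (starRingEnd ℂ) (c M)) * ee (((N - M : ℤ) : ℝ) * α) := by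
      intro α
      rw [Complex.ofReal_pow, ← Complex.mul_conj', map_sum, Finset.sum_mul_sum]
      refine Finset.sum_congr rfl fun N _ => Finset.sum_congr rfl fun M _ => ?_
      rw [map_mul, conj_ee]
      have : ((N - M : ℤ) : ℝ) * α = N * α + -(M * α) := by
        push_cast
        ring
      rw [this, ee_add]
      ring
    simp_rw [e1]
    rw [intervalIntegral.integral_finsetSum]
    · rw [Complex.ofReal_sum]
      refine Finset.sum_congr rfl fun N hN => ?_
      rw [intervalIntegral.integral_finsetSum]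
      · have e2 : ∀ M ∈ S, ∫ α in (-(1 / 2) : ℝ)..(1 / 2), (c N * (starRingEnd ℂ) (c M)) * ee (((N - M : ℤ) : ℝ) * α) =
            if M = N then c N * (starRingEnd ℂ) (c M) else 0 := by
          intro M _
          rw [intervalIntegral.integral_const_mul, ee_orth (N - M)]
          by_cases h : M = N
          · rw [if_pos h, if_pos (by omega), mul_one]
          · rw [if_neg h, if_neg (by omega), mul_zero]
        rw [Finset.sum_congr rfl e2, Finset.sum_ite_eq' S N, if_pos hN, Complex.mul_conj', Complex.ofReal_pow]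
      · intro M _
        apply Continuous.intervalIntegrable
        fun_prop
    · intro N _
      apply Continuous.intervalIntegrable
      fun_prop
  exact_mod_cast h1

/-- Bessel's inequality -/
lemma bessel (H : ℝ → ℂ) (hH : Continuous H) (S : Finset ℤ) :
    ∑ N ∈ S, ‖∫ α in (-(1 / 2) : ℝ)..(1 / 2), H α * ee (-(N * α))‖ ^ 2 ≤ ∫ α in (-(1 / 2) : ℝ)..(1 / 2), ‖H α‖ ^ 2 := by
  have hc := ee_cont
  set c : ℤ → ℂ := fun N => ∫ α in (-(1 / 2) : ℝ)..(1 / 2), H α * ee (-(N * α)) with hcdef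
  have hP : Continuous (fun α : ℝ => ∑ N ∈ S, c N * ee (N * α)) := by fun_prop
  have h1 : ∫ α in (-(1 / 2) : ℝ)..(1 / 2), H α * (starRingEnd ℂ) (∑ N ∈ S, c N * ee (N * α)) =
      ((∑ N ∈ S, ‖c N‖ ^ 2 : ℝ) : ℂ) := by
    have e1 : ∀ α : ℝ, H α * (starRingEnd ℂ) (∑ N ∈ S, c N * ee (N * α)) =
        ∑ N ∈ S, (starRingEnd ℂ) (c N) * (H α * ee (-(N * α))) := by
      intro α
      rw [map_sum, Finset.mul_sum]
      refine Finset.sum_congr rfl fun N _ => ?_
      rw [map_mul, conj_ee]
      ring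
    simp_rw [e1]
    rw [intervalIntegral.integral_finsetSum]
    · push_cast
      refine Finset.sum_congr rfl fun N _ => ?_
      rw [intervalIntegral.integral_const_mul]
      show (starRingEnd ℂ) (c N) * c N = _
      rw [mul_comm, Complex.mul_conj']
    · intro N _
      apply Continuous.intervalIntegrable
      fun_prop
  have h2 : ∫ α in (-(1 / 2) : ℝ)..(1 / 2), (H α * (starRingEnd ℂ) (∑ N ∈ S, c N * ee (N * α))).re =
      ∑ N ∈ S, ‖c N‖ ^ 2 := by
    have hi : IntervalIntegrable (fun α : ℝ => H α * (starRingEnd ℂ) (∑ N ∈ S, c N * ee (N * α))) volume (-(1 / 2)) (1 / 2) := by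
      apply Continuous.intervalIntegrable
      exact hH.mul (Complex.continuous_conj.comp hP)
    have h3 := Complex.reCLM.intervalIntegral_comp_comm hi
    rw [h1] at h3
    exact h3
  have h4 := pars S c
  have h5 : ∀ α : ℝ, 2 * (H α * (starRingEnd ℂ) (∑ N ∈ S, c N * ee (N * α))).re - ‖∑ N ∈ S, c N * ee (N * α)‖ ^ 2 ≤
      ‖H α‖ ^ 2 := by
    intro α
    have h6 := norm_sub_sq_real (H α) (∑ N ∈ S, c N * ee (N * α))
    have h7 : inner ℝ (H α) (∑ N ∈ S, c N * ee (N * α)) = (H α * (starRingEnd ℂ) (∑ N ∈ S, c N * ee (N * α))).re := by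
      rw [Complex.inner]
      rw [← Complex.conj_re]
      congr 1
      rw [map_mul, Complex.conj_conj, mul_comm]
    rw [h7] at h6
    have h8 := sq_nonneg ‖H α - ∑ N ∈ S, c N * ee (N * α)‖
    linarith
  have h9 : ∫ α in (-(1 / 2) : ℝ)..(1 / 2), (2 * (H α * (starRingEnd ℂ) (∑ N ∈ S, c N * ee (N * α))).re -
      ‖∑ N ∈ S, c N * ee (N * α)‖ ^ 2) ≤ ∫ α in (-(1 / 2) : ℝ)..(1 / 2), ‖H α‖ ^ 2 := by
    apply intervalIntegral.integral_mono_on (by norm_num)
    · apply Continuous.intervalIntegrable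
      have : Continuous fun α : ℝ => (H α * (starRingEnd ℂ) (∑ N ∈ S, c N * ee (N * α))).re :=
        Complex.continuous_re.comp (hH.mul (Complex.continuous_conj.comp hP))
      exact (continuous_const.mul this).sub (hP.norm.pow 2)
    · apply Continuous.intervalIntegrable
      exact hH.norm.pow 2
    · intro α _
      exact h5 α
  rw [intervalIntegral.integral_sub, intervalIntegral.integral_const_mul, h2, h4] at h9
  · linarith
  · apply Continuous.intervalIntegrable
    have : Continuous fun α : ℝ => (H α * (starRingEnd ℂ) (∑ N ∈ S, c N * ee (N * α))).re :=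
      Complex.continuous_re.comp (hH.mul (Complex.continuous_conj.comp hP))
    exact continuous_const.mul this
  · apply Continuous.intervalIntegrable
    exact hP.norm.pow 2

/-- **(Y1)** -/
theorem var_bound {ι κ : Type*} (A : Finset ι) (f : ι → ℕ) (B : Finset κ) (g : κ → ℕ) (w : κ → ℝ) {W : ℕ} {B0 : ℝ}
    (hB0 : 0 ≤ B0) (hB : ∀ α : ℝ, |α| ≤ 1 / 2 → ‖GGs B g w α‖ * ‖1 - KK W α‖ ≤ B0) (S : Finset ℤ) :
    ∑ N ∈ S, (rr A f B g w N - (1 / (W : ℝ)) * ∑ h ∈ Finset.range W, rr A f B g w (N - h)) ^ 2 ≤ B0 ^ 2 * JJ A f := by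
  have hc := ee_cont
  have hF := FFs_cont A f
  have hG := GGs_cont B g w
  have hK : Continuous (KK W) := by
    unfold KK
    fun_prop
  have h1 : ∀ N : ℤ, ((rr A f B g w N - (1 / (W : ℝ)) * ∑ h ∈ Finset.range W, rr A f B g w (N - h) : ℝ) : ℂ) =
      ∫ α in (-(1 / 2) : ℝ)..(1 / 2), (FFs A f α * GGs B g w α * (1 - KK W α)) * ee (-(N * α)) := by
    intro N
    push_cast
    rw [rr_eq]
    simp_rw [rr_eq]
    rw [← intervalIntegral.integral_finsetSum, ← intervalIntegral.integral_const_mul, ← intervalIntegral.integral_sub]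
    · refine intervalIntegral.integral_congr fun α _ => ?_
      unfold KK
      have e1 : ∀ h : ℕ, FFs A f α * GGs B g w α * ee (-(((N - (h : ℤ) : ℤ) : ℝ) * α)) =
          FFs A f α * GGs B g w α * ee (-(N * α)) * ee (h * α) := by
        intro h
        have : -(((N - (h : ℤ) : ℤ) : ℝ) * α) = -(N * α) + h * α := by
          push_cast
          ring
        rw [this, ee_add]
        ring
      rw [Finset.sum_congr rfl fun h _ => e1 h, ← Finset.mul_sum]
      ring
    · apply Continuous.intervalIntegrable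
      fun_prop
    · apply Continuous.intervalIntegrable
      fun_prop
    · intro h _
      apply Continuous.intervalIntegrable
      fun_prop
  have hH : Continuous fun α : ℝ => FFs A f α * GGs B g w α * (1 - KK W α) := by fun_prop
  have h2 := bessel _ hH S
  have h3 : ∀ N ∈ S, (rr A f B g w N - (1 / (W : ℝ)) * ∑ h ∈ Finset.range W, rr A f B g w (N - h)) ^ 2 =
      ‖∫ α in (-(1 / 2) : ℝ)..(1 / 2), (FFs A f α * GGs B g w α * (1 - KK W α)) * ee (-(N * α))‖ ^ 2 := by
    intro N _
    rw [← h1, Complex.norm_real, Real.norm_eq_abs, sq_abs]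
  rw [Finset.sum_congr rfl h3]
  refine h2.trans ?_
  calc ∫ α in (-(1 / 2) : ℝ)..(1 / 2), ‖FFs A f α * GGs B g w α * (1 - KK W α)‖ ^ 2
      ≤ ∫ α in (-(1 / 2) : ℝ)..(1 / 2), B0 ^ 2 * ‖FFs A f α‖ ^ 2 := by
        apply intervalIntegral.integral_mono_on (by norm_num)
        · apply Continuous.intervalIntegrable
          exact hH.norm.pow 2
        · apply Continuous.intervalIntegrable
          fun_prop
        · intro α hα
          have hα' : |α| ≤ 1 / 2 := by
            rw [abs_le]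
            exact hα
          have h4 := hB α hα'
          have h5 : 0 ≤ ‖GGs B g w α‖ * ‖1 - KK W α‖ := by positivity
          rw [norm_mul, norm_mul]
          calc (‖FFs A f α‖ * ‖GGs B g w α‖ * ‖1 - KK W α‖) ^ 2 =
                (‖GGs B g w α‖ * ‖1 - KK W α‖) ^ 2 * ‖FFs A f α‖ ^ 2 := by ring
            _ ≤ B0 ^ 2 * ‖FFs A f α‖ ^ 2 :=
                mul_le_mul_of_nonneg_right (pow_le_pow_left₀ h5 h4 2) (by positivity)
    _ = B0 ^ 2 * JJ A f := by
        rw [intervalIntegral.integral_const_mul, JJ_eq]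

end Pool.Agent.J4H30.WT
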